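import Pool.Agent.H41.PS.Order

/-! # Counting the orbit of a fraction in an interval -/

set_option autoImplicit false

open Finset

namespace H41.PS

open H41.Rand

variable (b M G T a : ℕ)

/-- the remainder of `a b ^ i` modulo `M G` -/
def rr (i : ℕ) : ℕ := a * b ^ i % (M * G)

lemma coset (hb : 2 ≤ b) (hM : 0 < M) (hG : 0 < G) (hcop : Nat.Coprime b (M * G))
    (ha : Nat.Coprime a (M * G)) (hT : M ∣ b ^ T - 1)
    (hinj : ∀ i : ℕ, 0 < i → M * G ∣ b ^ (T * i) - 1 → G ∣ i) (s : ℕ) :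
    Set.InjOn (fun i => rr b M G a (s + T * i)) (range G : Set ℕ) ∧
    (range G).image (fun i => rr b M G a (s + T * i)) =
      (range G).image (fun t => (a * b ^ s) % M + M * t) := by
  have hQ : 0 < M * G := Nat.mul_pos hM hG
  have hinj' : ∀ i j : ℕ, i < j → j < G → rr b M G a (s + T * i) ≠ rr b M G a (s + T * j) := by
    intro i j hij hjG h1
    unfold rr at h1
    have h2 : a * b ^ (s + T * i) ≡ a * b ^ (s + T * j) [MOD (M * G)] := h1
    obtain ⟨l, rfl⟩ := Nat.exists_eq_add_of_lt hij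
    have h3 : 1 * (a * b ^ (s + T * i)) ≡ b ^ (T * (l + 1)) * (a * b ^ (s + T * i)) [MOD (M * G)] := by
      have e1 : b ^ (T * (l + 1)) * (a * b ^ (s + T * i)) = a * b ^ (s + T * (i + l + 1)) := by
        rw [show s + T * (i + l + 1) = T * (l + 1) + (s + T * i) by ring, pow_add b (T * (l + 1))]
        ring
      rw [e1, one_mul]
      exact h2
    have h4 : Nat.Coprime (M * G) (a * b ^ (s + T * i)) :=
      Nat.Coprime.symm (Nat.Coprime.mul_left ha (Nat.Coprime.pow_left _ hcop))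
    have h5 := Nat.ModEq.cancel_right_of_coprime h4 h3
    have h6 := (Nat.modEq_iff_dvd' (Nat.one_le_pow _ _ (by omega))).1 h5
    have h7 := Nat.le_of_dvd (by omega) (hinj (l + 1) (by omega) h6)
    omega
  have hI : Set.InjOn (fun i => rr b M G a (s + T * i)) (range G : Set ℕ) := by
    intro i hi j hj hij
    rw [coe_range, Set.mem_Iio] at hi hj
    rcases lt_trichotomy i j with h | h | h
    · exact absurd hij (hinj' i j h hj)
    · exact h
    · exact absurd hij.symm (hinj' j i h hi)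
  refine ⟨hI, ?_⟩
  refine eq_of_subset_of_card_le ?_ ?_
  · intro x hx
    obtain ⟨i, hi, rfl⟩ := mem_image.1 hx
    rw [mem_image]
    have h1 : rr b M G a (s + T * i) % M = (a * b ^ s) % M := by
      unfold rr
      rw [Nat.mod_mul_right_mod]
      have h2 : b ^ (T * i) ≡ 1 [MOD M] := by
        have h3 : 1 ≡ b ^ T [MOD M] := (Nat.modEq_iff_dvd' (Nat.one_le_pow _ _ (by omega))).2 hT
        have h4 := h3.symm.pow i
        rwa [← pow_mul, one_pow] at h4
      have h5 : a * b ^ (s + T * i) ≡ a * b ^ s * 1 [MOD M] := by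
        rw [pow_add, ← mul_assoc]
        exact Nat.ModEq.mul_left _ h2
      rw [mul_one] at h5
      exact h5
    have h2 : rr b M G a (s + T * i) < M * G := Nat.mod_lt _ hQ
    refine ⟨rr b M G a (s + T * i) / M, ?_, ?_⟩
    · rw [mem_range]
      exact Nat.div_lt_of_lt_mul h2
    · rw [← h1]
      exact Nat.mod_add_div _ _
  · rw [card_image_of_injOn hI]
    exact card_image_le

theorem coset_count (hb : 2 ≤ b) (hM : 0 < M) (hG : 0 < G) (hcop : Nat.Coprime b (M * G))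
    (ha : Nat.Coprime a (M * G)) (hT : M ∣ b ^ T - 1)
    (hinj : ∀ i : ℕ, 0 < i → M * G ∣ b ^ (T * i) - 1 → G ∣ i) (s : ℕ) (α β : ℝ) (hα : 0 ≤ α)
    (hαβ : α ≤ β) (hβ : β ≤ 1) :
    |(((range G).filter fun i => α ≤ (rr b M G a (s + T * i) : ℝ) / ((M * G : ℕ) : ℝ) ∧
      (rr b M G a (s + T * i) : ℝ) / ((M * G : ℕ) : ℝ) < β).card : ℝ) - G * (β - α)| ≤ 1 := by
  obtain ⟨hI, hE⟩ := coset b M G T a hb hM hG hcop ha hT hinj s
  obtain ⟨ρ, hρ⟩ : ∃ ρ : ℕ, ρ = (a * b ^ s) % M := ⟨_, rfl⟩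
  rw [← hρ] at hE
  have hρM : ρ < M := by rw [hρ]; exact Nat.mod_lt _ hM
  have hMr : (0 : ℝ) < M := by exact_mod_cast hM
  have hGr : (0 : ℝ) < G := by exact_mod_cast hG
  have hρr : (ρ : ℝ) / M < 1 := by
    rw [div_lt_one hMr]
    exact_mod_cast hρM
  have hρ0 : (0 : ℝ) ≤ (ρ : ℝ) / M := by positivity
  -- pass to the image
  have h1 : ((range G).filter fun i => α ≤ (rr b M G a (s + T * i) : ℝ) / ((M * G : ℕ) : ℝ) ∧
      (rr b M G a (s + T * i) : ℝ) / ((M * G : ℕ) : ℝ) < β).card =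
      (((range G).image (fun i => rr b M G a (s + T * i))).filter fun r : ℕ =>
        α ≤ (r : ℝ) / ((M * G : ℕ) : ℝ) ∧ (r : ℝ) / ((M * G : ℕ) : ℝ) < β).card := by
    rw [filter_image, card_image_of_injOn]
    exact hI.mono (by
      intro x hx
      exact filter_subset _ _ hx)
  have h2 : (((range G).image (fun t => ρ + M * t)).filter fun r : ℕ =>
        α ≤ (r : ℝ) / ((M * G : ℕ) : ℝ) ∧ (r : ℝ) / ((M * G : ℕ) : ℝ) < β).card =
      ((range G).filter fun t : ℕ =>
        α ≤ ((ρ + M * t : ℕ) : ℝ) / ((M * G : ℕ) : ℝ) ∧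
          ((ρ + M * t : ℕ) : ℝ) / ((M * G : ℕ) : ℝ) < β).card := by
    rw [filter_image, card_image_of_injOn]
    intro x _ y _ hxy
    simp only at hxy
    have h3 : M * x = M * y := by omega
    exact Nat.eq_of_mul_eq_mul_left hM h3
  rw [h1, hE, h2]
  have h3 : ((range G).filter fun t : ℕ =>
        α ≤ ((ρ + M * t : ℕ) : ℝ) / ((M * G : ℕ) : ℝ) ∧
          ((ρ + M * t : ℕ) : ℝ) / ((M * G : ℕ) : ℝ) < β) =
      Finset.Ico ⌈α * G - ρ / M⌉₊ ⌈β * G - ρ / M⌉₊ := by
    ext t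
    rw [mem_filter, mem_range, Finset.mem_Ico, Nat.ceil_le, Nat.lt_ceil]
    have e1 : ((ρ + M * t : ℕ) : ℝ) / ((M * G : ℕ) : ℝ) = (ρ / M + t) / G := by
      push_cast
      field_simp
    rw [e1, le_div_iff₀ hGr, div_lt_iff₀ hGr]
    constructor
    · rintro ⟨_, h4, h5⟩
      exact ⟨by linarith, by linarith⟩
    · rintro ⟨h4, h5⟩
      refine ⟨?_, by linarith, by linarith⟩
      have h6 : β * G ≤ G := by nlinarith
      have h7 : (t : ℝ) < G := by linarith
      exact_mod_cast h7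
  rw [h3, Nat.card_Ico]
  have hx1 : -1 < α * G - ρ / M := by
    have : 0 ≤ α * G := by positivity
    linarith
  have hxy : α * G - ρ / M ≤ β * G - ρ / M := by
    have : α * G ≤ β * G := by gcongr
    linarith
  have h4 := Nat.ceil_mono hxy
  rw [Nat.cast_sub h4]
  have h5 := Nat.le_ceil (α * G - (ρ : ℝ) / M)
  have h6 := Nat.le_ceil (β * G - (ρ : ℝ) / M)
  have h7 := Nat.ceil_lt_add_one_of_gt_neg_one hx1
  have h8 := Nat.ceil_lt_add_one_of_gt_neg_one (hx1.trans_le hxy)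
  rw [abs_le]
  constructor <;> nlinarith

end H41.PS
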