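import Mathlib

namespace H41.PS.EMeas

open intervalIntegral Real

/-- `(x (1 - x))^n / n!` -/
noncomputable def f (n : ℕ) (x : ℝ) : ℝ := (x * (1 - x)) ^ n / (n.factorial : ℝ)

theorem f_continuous (n : ℕ) : Continuous (f n) := by
  unfold f; fun_prop

theorem f_deriv (n : ℕ) (x : ℝ) : HasDerivAt (f (n + 1)) (f n x * (1 - 2 * x)) x := by
  have h1 : HasDerivAt (fun x : ℝ => x * (1 - x)) (1 - 2 * x) x := by
    have := (hasDerivAt_id x).mul ((hasDerivAt_const x (1 : ℝ)).sub (hasDerivAt_id x))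
    refine this.congr_deriv ?_
    simp only [id, Pi.sub_apply]; ring
  have h2 := (h1.pow (n + 1)).div_const ((n + 1).factorial : ℝ)
  refine h2.congr_deriv ?_
  unfold f
  rw [Nat.factorial_succ]
  have : ((n : ℝ) + 1) ≠ 0 := by positivity
  have h3 : (n.factorial : ℝ) ≠ 0 := by positivity
  push_cast
  field_simp

theorem u_f (n : ℕ) (x : ℝ) : x * (1 - x) * f n x = (n + 1) * f (n + 1) x := by
  unfold f
  rw [Nat.factorial_succ]
  have : ((n : ℝ) + 1) ≠ 0 := by positivity
  have h3 : (n.factorial : ℝ) ≠ 0 := by positivity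
  push_cast
  field_simp
  ring

/-- the integrals -/
noncomputable def I (n : ℕ) : ℝ := ∫ x in (0 : ℝ)..1, f n x * exp x

theorem I_rec (n : ℕ) : I (n + 2) = I n - (4 * n + 6) * I (n + 1) := by
  have hder : ∀ x : ℝ, HasDerivAt (fun x => (f (n + 2) x - f (n + 1) x * (1 - 2 * x)) * exp x)
      (f (n + 2) x * exp x - f n x * exp x + (4 * n + 6) * (f (n + 1) x * exp x)) x := by
    intro x
    have h1 := f_deriv (n + 1) x
    have h2 := f_deriv n x
    have h3 : HasDerivAt (fun x : ℝ => 1 - 2 * x) (-2) x := by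
      have := (hasDerivAt_const x (1 : ℝ)).sub ((hasDerivAt_id x).const_mul 2)
      refine this.congr_deriv ?_
      simp
    have h4 := (h1.sub (h2.mul h3)).mul (Real.hasDerivAt_exp x)
    refine h4.congr_deriv ?_
    have hu := u_f n x
    simp only [Pi.sub_apply, Pi.mul_apply]
    have e : f n x * (1 - 2 * x) * (1 - 2 * x) = f n x - 4 * ((n + 1) * f (n + 1) x) := by
      rw [← hu]; ring
    rw [e]
    ring
  have hcont : Continuous (fun x => f (n + 2) x * exp x - f n x * exp x +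
      (4 * n + 6) * (f (n + 1) x * exp x)) := by
    have a := f_continuous (n + 2)
    have b := f_continuous (n + 1)
    have c := f_continuous n
    fun_prop
  have h := integral_eq_sub_of_hasDerivAt (a := 0) (b := 1) (fun x _ => hder x)
    (hcont.intervalIntegrable 0 1)
  have i0 : IntervalIntegrable (fun x => f n x * exp x) MeasureTheory.volume 0 1 :=
    ((f_continuous n).mul Real.continuous_exp).intervalIntegrable 0 1
  have i1 : IntervalIntegrable (fun x => f (n + 1) x * exp x) MeasureTheory.volume 0 1 :=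
    ((f_continuous (n + 1)).mul Real.continuous_exp).intervalIntegrable 0 1
  have i2 : IntervalIntegrable (fun x => f (n + 2) x * exp x) MeasureTheory.volume 0 1 :=
    ((f_continuous (n + 2)).mul Real.continuous_exp).intervalIntegrable 0 1
  rw [integral_add (i2.sub i0) (i1.const_mul _), integral_sub i2 i0, integral_const_mul] at h
  have z1 : (f (n + 2) 1 - f (n + 1) 1 * (1 - 2 * 1)) * exp 1 -
      (f (n + 2) 0 - f (n + 1) 0 * (1 - 2 * 0)) * exp 0 = 0 := by
    unfold f; simp
  rw [z1] at h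
  unfold I
  linarith

theorem I_zero : I 0 = exp 1 - 1 := by
  unfold I f
  simp

theorem I_one : I 1 = 3 - exp 1 := by
  have hder : ∀ x : ℝ, HasDerivAt (fun x => (-x ^ 2 + 3 * x - 3) * exp x)
      (f 1 x * exp x) x := by
    intro x
    have h1 : HasDerivAt (fun x : ℝ => -x ^ 2 + 3 * x - 3) (-(2 * x) + 3) x := by
      have := (((hasDerivAt_id x).pow 2).neg.add ((hasDerivAt_id x).const_mul 3)).sub_const 3
      refine this.congr_deriv ?_
      simp
    refine (h1.mul (Real.hasDerivAt_exp x)).congr_deriv ?_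
    unfold f
    simp
    ring
  have h := integral_eq_sub_of_hasDerivAt (a := 0) (b := 1) (fun x _ => hder x)
    (((f_continuous 1).mul Real.continuous_exp).intervalIntegrable 0 1)
  unfold I
  rw [h]
  simp
  ring

theorem I_pos (n : ℕ) : 0 < I n := by
  unfold I
  apply intervalIntegral_pos_of_pos_on
  · exact ((f_continuous n).mul Real.continuous_exp).intervalIntegrable 0 1
  · intro x hx
    have h1 : 0 < x * (1 - x) := mul_pos hx.1 (by linarith [hx.2])
    unfold f
    positivity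
  · norm_num

/-- denominators -/
def q : ℕ → ℕ
  | 0 => 1
  | 1 => 1
  | (n + 2) => (4 * n + 6) * q (n + 1) + q n

/-- numerators -/
def r : ℕ → ℕ
  | 0 => 1
  | 1 => 3
  | (n + 2) => (4 * n + 6) * r (n + 1) + r n

theorem I_eq : ∀ n : ℕ, I n = (-1) ^ n * (q n * exp 1 - r n) ∧
    I (n + 1) = (-1) ^ (n + 1) * (q (n + 1) * exp 1 - r (n + 1)) := by
  intro n
  induction n with
  | zero =>
    refine ⟨?_, ?_⟩
    · rw [I_zero]; simp [q, r]
    · rw [I_one]; simp [q, r]
  | succ n ih =>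
    refine ⟨ih.2, ?_⟩
    rw [show n + 1 + 1 = n + 2 by ring, I_rec, ih.1, ih.2]
    simp only [q, r]
    push_cast
    ring

theorem q_I (n : ℕ) : (q (n + 1) : ℝ) * I n + q n * I (n + 1) = 2 := by
  induction n with
  | zero => rw [I_zero, I_one]; simp [q]; norm_num
  | succ n ih =>
    rw [show n + 1 + 1 = n + 2 by ring, I_rec]
    simp only [q]
    push_cast
    linarith

theorem det (n : ℕ) : (r n : ℤ) * q (n + 1) - r (n + 1) * q n = 2 * (-1) ^ (n + 1) := by
  induction n with
  | zero => simp [q, r]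
  | succ n ih =>
    rw [show n + 1 + 1 = n + 2 by ring]
    simp only [q, r]
    push_cast
    rw [pow_succ, mul_comm ((-1 : ℤ) ^ (n + 1)) (-1)]
    linarith

theorem q_pos : ∀ n, 0 < q n ∧ 0 < q (n + 1) := by
  intro n
  induction n with
  | zero => simp [q]
  | succ n ih =>
    refine ⟨ih.2, ?_⟩
    rw [show n + 1 + 1 = n + 2 by ring]
    simp only [q]
    have := ih.1
    omega

theorem q_mono : Monotone q := by
  apply monotone_nat_of_le_succ
  intro n
  cases n with
  | zero => simp [q]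
  | succ n =>
    rw [show n + 1 + 1 = n + 2 by ring]
    simp only [q]
    nlinarith [(q_pos n).1, (q_pos n).2]

theorem q_growth (n : ℕ) : 2 ^ n ≤ q (n + 1) := by
  induction n with
  | zero => simp [q]
  | succ n ih =>
    rw [show n + 1 + 1 = n + 2 by ring]
    simp only [q]
    rw [pow_succ]
    nlinarith [(q_pos n).1, (q_pos n).2]

theorem I_le (n : ℕ) : I n ≤ 2 / q (n + 1) := by
  have h := q_I n
  have h1 : 0 < (q (n + 1) : ℝ) := by exact_mod_cast (q_pos n).2
  have h2 : 0 < (q n : ℝ) := by exact_mod_cast (q_pos n).1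
  rw [le_div_iff₀ h1]
  have := mul_pos h2 (I_pos (n + 1))
  nlinarith

theorem lower (Q : ℕ) (hQ : 1 ≤ Q) (m : ℤ) : ∃ n : ℕ, 2 ^ n < 8 * Q ∧
    1 / (8 * (4 * n + 3) * Q : ℝ) ≤ |Q * exp 1 - m| := by
  classical
  have hex : ∃ n, 4 * Q ≤ q (n + 1) := by
    refine ⟨4 * Q, ?_⟩
    have h1 := q_growth (4 * Q)
    have h2 : 4 * Q < 2 ^ (4 * Q) := Nat.lt_two_pow_self
    omega
  set n := Nat.find hex with hn
  have hn1 : 4 * Q ≤ q (n + 1) := Nat.find_spec hex
  have hn0 : 1 ≤ n := by
    by_contra h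
    have h0 : n = 0 := by omega
    rw [h0] at hn1
    simp [q] at hn1
    omega
  have hn2 : q n < 4 * Q := by
    have := Nat.find_min hex (m := n - 1) (by omega)
    rw [show n - 1 + 1 = n by omega] at this
    omega
  refine ⟨n, ?_, ?_⟩
  · have h1 := q_growth (n - 1)
    rw [show n - 1 + 1 = n by omega] at h1
    have h2 : 2 ^ n = 2 * 2 ^ (n - 1) := by
      rw [← pow_succ']; congr 1; omega
    omega
  · have hq1 : (q (n + 1) : ℝ) ≤ (4 * n + 3) * (4 * Q) := by
      obtain ⟨k, hk⟩ : ∃ k, n = k + 1 := ⟨n - 1, by omega⟩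
      have h1 : q (n + 1) = (4 * k + 6) * q n + q k := by rw [hk]; rfl
      have h2 : q k ≤ q n := q_mono (by omega)
      have h3 : q (n + 1) ≤ (4 * n + 3) * (4 * Q) := by
        rw [h1]
        calc (4 * k + 6) * q n + q k ≤ (4 * k + 6) * q n + q n := by omega
          _ = (4 * k + 7) * q n := by ring
          _ ≤ (4 * k + 7) * (4 * Q) := Nat.mul_le_mul_left _ hn2.le
          _ = (4 * n + 3) * (4 * Q) := by rw [hk]; ring
      exact_mod_cast h3
    have hQpos : (0 : ℝ) < Q := by exact_mod_cast hQ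
    have key : ∀ l, n ≤ l → l ≤ n + 1 → (q l : ℤ) * m - r l * Q ≠ 0 →
        1 / (2 * q (n + 1) : ℝ) ≤ |Q * exp 1 - m| := by
      intro l hl1 hl2 hne
      have h1 : (1 : ℝ) ≤ |(q l : ℝ) * m - r l * Q| := by
        have : (1 : ℤ) ≤ |(q l : ℤ) * m - r l * Q| := Int.one_le_abs hne
        exact_mod_cast this
      have h2 : |(q l : ℝ) * exp 1 - r l| = I l := by
        have h3 := (I_eq l).1
        have h4 := I_pos l
        rw [← abs_of_pos h4, h3, abs_mul, abs_pow, abs_neg, abs_one, one_pow, one_mul]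
      have h3 : (q l : ℝ) * m - r l * Q = -(q l * (Q * exp 1 - m)) + Q * (q l * exp 1 - r l) := by
        ring
      have h4 : |(q l : ℝ) * m - r l * Q| ≤ q l * |Q * exp 1 - m| + Q * I l := by
        rw [h3]
        refine (abs_add_le _ _).trans ?_
        rw [abs_neg, abs_mul, abs_mul, h2, Nat.abs_cast, Nat.abs_cast]
      have h5 : (q l : ℝ) ≤ q (n + 1) := by exact_mod_cast q_mono hl2
      have h6 : (q (n + 1) : ℝ) ≤ q (l + 1) := by exact_mod_cast q_mono (by omega)
      have h7 : (4 * Q : ℝ) ≤ q (n + 1) := by exact_mod_cast hn1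
      have h8 : (Q : ℝ) * I l ≤ 1 / 2 := by
        have h9 := I_le l
        have h10 : 2 / (q (l + 1) : ℝ) ≤ 2 / (4 * Q) := by
          apply div_le_div_of_nonneg_left (by norm_num) (by positivity) (h7.trans h6)
        calc (Q : ℝ) * I l ≤ Q * (2 / (4 * Q)) := by
              apply mul_le_mul_of_nonneg_left (h9.trans h10) hQpos.le
          _ = 1 / 2 := by field_simp; norm_num
      have h9 : (1 : ℝ) / 2 ≤ q (n + 1) * |Q * exp 1 - m| := by
        have : (q l : ℝ) * |Q * exp 1 - m| ≤ q (n + 1) * |Q * exp 1 - m| :=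
          mul_le_mul_of_nonneg_right h5 (abs_nonneg _)
        linarith
      have h10 : (0 : ℝ) < q (n + 1) := by linarith
      rw [div_le_iff₀ (by positivity)]
      linarith
    have hex2 : ∃ l, n ≤ l ∧ l ≤ n + 1 ∧ (q l : ℤ) * m - r l * Q ≠ 0 := by
      by_contra hcon
      push Not at hcon
      have e1 := hcon n le_rfl (by omega)
      have e2 := hcon (n + 1) (by omega) le_rfl
      have e3 := det n
      have e4 : ((r n : ℤ) * q (n + 1) - r (n + 1) * q n) * Q = 0 := by
        linear_combination (-(q (n + 1) : ℤ)) * e1 + (q n : ℤ) * e2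
      rw [e3] at e4
      have : (Q : ℤ) ≠ 0 := by
        have : (1 : ℤ) ≤ Q := by exact_mod_cast hQ
        omega
      have h2 : (2 * (-1 : ℤ) ^ (n + 1)) ≠ 0 := by
        apply mul_ne_zero (by norm_num)
        exact pow_ne_zero _ (by norm_num)
      exact mul_ne_zero h2 this e4
    obtain ⟨l, hl1, hl2, hl3⟩ := hex2
    refine le_trans ?_ (key l hl1 hl2 hl3)
    have h10 : (0 : ℝ) < q (n + 1) := by exact_mod_cast (q_pos n).2
    apply one_div_le_one_div_of_le (by positivity)
    linarith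

/-- `e` has irrationality exponent two, quantitatively. -/
theorem measure (ε : ℝ) (hε : 0 < ε) : ∃ c : ℝ, 0 < c ∧ ∀ Q : ℕ, 1 ≤ Q → ∀ m : ℤ,
    c ≤ (Q : ℝ) ^ (1 + ε) * |Q * exp 1 - m| := by
  set t : ℝ := (2 : ℝ) ^ ε with ht
  have ht1 : 1 < t := Real.one_lt_rpow (by norm_num) hε
  set c0 : ℝ := min (1 / 3) ((t - 1) / 4) with hc0
  have hc0pos : 0 < c0 := lt_min (by norm_num) (by linarith)
  have h8 : (0 : ℝ) < (8 : ℝ) ^ ε := by positivity
  refine ⟨c0 / (8 * (8 : ℝ) ^ ε), by positivity, fun Q hQ m => ?_⟩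
  obtain ⟨n, hn, hlow⟩ := lower Q hQ m
  have hQpos : (0 : ℝ) < Q := by exact_mod_cast hQ
  have hn' : ((2 : ℝ) ^ n) < 8 * Q := by exact_mod_cast hn
  have h1 : t ^ n ≤ (8 : ℝ) ^ ε * (Q : ℝ) ^ ε := by
    rw [← Real.mul_rpow (by norm_num) hQpos.le]
    have : t ^ n = ((2 : ℝ) ^ n) ^ ε := by
      rw [ht, ← Real.rpow_natCast, ← Real.rpow_natCast, ← Real.rpow_mul (by norm_num),
        ← Real.rpow_mul (by norm_num), mul_comm]
    rw [this]
    exact Real.rpow_le_rpow (by positivity) hn'.le hε.le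
  have h2 : c0 * (4 * n + 3) ≤ t ^ n := by
    have hb := one_add_mul_le_pow (show (-2 : ℝ) ≤ t - 1 by linarith) n
    rw [show 1 + (t - 1) = t by ring] at hb
    have a1 : c0 ≤ 1 / 3 := min_le_left _ _
    have a2 : c0 ≤ (t - 1) / 4 := min_le_right _ _
    have hnn : (0 : ℝ) ≤ n := Nat.cast_nonneg n
    nlinarith
  have h3 : (Q : ℝ) ^ (1 + ε) = Q * (Q : ℝ) ^ ε := by
    rw [Real.rpow_add hQpos, Real.rpow_one]
  have hnn : (0 : ℝ) ≤ n := Nat.cast_nonneg n
  calc c0 / (8 * (8 : ℝ) ^ ε) ≤ (Q * (Q : ℝ) ^ ε) * (1 / (8 * (4 * n + 3) * Q)) := by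
        rw [div_le_iff₀ (by positivity)]
        have : (Q * (Q : ℝ) ^ ε) * (1 / (8 * (4 * n + 3) * Q)) * (8 * (8 : ℝ) ^ ε) =
            ((8 : ℝ) ^ ε * (Q : ℝ) ^ ε) / (4 * n + 3) := by
          field_simp
        rw [this, le_div_iff₀ (by positivity)]
        linarith
    _ ≤ (Q : ℝ) ^ (1 + ε) * |Q * exp 1 - m| := by
        rw [h3]
        exact mul_le_mul_of_nonneg_left hlow (by positivity)

end H41.PS.EMeas
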