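import Pool.Agent.H41.PS.Coset

/-! # The frequencies in the expansion of a fraction -/

set_option autoImplicit false

open Finset

namespace H41.PS

open H41.Rand

lemma block_sum (h : ℕ → ℝ) (T G s0 : ℕ) :
    ∑ i ∈ range (T * G), h (s0 + i) = ∑ s ∈ range T, ∑ i ∈ range G, h (s0 + s + T * i) := by
  induction G with
  | zero => simp
  | succ G ih =>
    rw [mul_add, mul_one, sum_range_add, ih]
    simp_rw [sum_range_succ]
    rw [sum_add_distrib]
    congr 1
    refine sum_congr rfl fun s _ => ?_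
    congr 1
    ring

lemma blocks_bound (h : ℕ → ℝ) (P : ℕ) (K : ℝ) (hK : ∀ s0, |∑ i ∈ range P, h (s0 + i)| ≤ K) (B : ℕ)
    (s0 : ℕ) : |∑ i ∈ range (B * P), h (s0 + i)| ≤ B * K := by
  induction B with
  | zero => simp
  | succ B ih =>
    rw [add_mul, one_mul, sum_range_add]
    refine (abs_add_le _ _).trans ?_
    have h1 := hK (s0 + B * P)
    have h2 : ∀ i, s0 + (B * P + i) = s0 + B * P + i := fun i => by ring
    simp_rw [h2]
    push_cast
    linarith

lemma abs_sum_le (h : ℕ → ℝ) (h1 : ∀ i, |h i| ≤ 1) (L : ℕ) : |∑ i ∈ range L, h i| ≤ L := by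
  refine (abs_sum_le_sum_abs _ _).trans ?_
  refine (sum_le_sum fun i _ => h1 i).trans ?_
  simp

theorem freq (x : ℝ) (b D A N G : ℕ) (hb : 2 ≤ b) (hD : 0 < D) (hA : Nat.Coprime A D)
    (hx : x = A / D) (hG : G ∣ D) (hN : ∀ r : ℕ, r.Prime → r ∣ D → r ≤ N)
    (h : ∀ p : ℕ, p.Prime → p ∣ G → Odd p ∧ ¬ p ∣ b ∧
      padicValNat p D = padicValNat p G + cc b p + Nat.log p N)
    (α β : ℝ) (hα : 0 ≤ α) (hαβ : α ≤ β) (hβ : β ≤ 1) (L : ℕ) :
    |(((range L).filter fun i => α ≤ Int.fract ((b : ℝ) ^ i * x) ∧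
      Int.fract ((b : ℝ) ^ i * x) < β).card : ℝ) - L * (β - α)| ≤ L / G + 2 * D := by
  classical
  have hG0 : 0 < G := Nat.pos_of_dvd_of_pos hG hD
  -- the part of `D` coprime to `b`
  obtain ⟨E, hE⟩ : ∃ E : ℕ, E = Nat.gcd D (b ^ D) := ⟨_, rfl⟩
  have hED : E ∣ D := by rw [hE]; exact Nat.gcd_dvd_left _ _
  have hEb : E ∣ b ^ D := by rw [hE]; exact Nat.gcd_dvd_right _ _
  have hE0 : 0 < E := Nat.pos_of_dvd_of_pos hED hD
  obtain ⟨Q, hQ⟩ := hED
  have hQ0 : 0 < Q := Nat.pos_of_ne_zero fun h => by rw [h, mul_zero] at hQ; omega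
  have hcop : Nat.Coprime b Q := by
    refine Nat.Coprime.symm (Nat.coprime_of_dvd fun r hrp hrQ hrb => ?_)
    have := Fact.mk hrp
    have h3 : r ^ (padicValNat r E + 1) ∣ D := by
      rw [pow_succ]
      calc r ^ padicValNat r E * r ∣ E * Q := mul_dvd_mul pow_padicValNat_dvd hrQ
        _ = D := hQ.symm
    have h1 : r ^ (padicValNat r E + 1) ∣ E := by
      have h2 : padicValNat r E + 1 ≤ D := by
        have h4 := Nat.le_of_dvd hD h3
        have h5 : padicValNat r E + 1 < r ^ (padicValNat r E + 1) := Nat.lt_pow_self hrp.one_lt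
        omega
      have h6 := Nat.dvd_gcd h3 ((pow_dvd_pow r h2).trans (pow_dvd_pow_of_dvd hrb D))
      rwa [← hE] at h6
    have h2 := (padicValNat_dvd_iff_le hE0.ne').1 h1
    omega
  have hGE : Nat.Coprime G E := by
    refine Nat.coprime_of_dvd fun r hrp hrG hrE => ?_
    exact (h r hrp hrG).2.1 (hrp.dvd_of_dvd_pow (hrE.trans hEb))
  have hGQ : G ∣ Q := by
    rw [hQ] at hG
    exact hGE.dvd_of_dvd_mul_left hG
  obtain ⟨M, hM⟩ := hGQ
  rw [mul_comm] at hM
  have hM0 : 0 < M := Nat.pos_of_ne_zero fun h => by rw [h, zero_mul] at hM; omega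
  have hpM : ∀ p : ℕ, p.Prime → p ∣ G → Odd p ∧ padicValNat p M = cc b p + Nat.log p N := by
    intro p hp hpG
    have := Fact.mk hp
    obtain ⟨h1, h2, h3⟩ := h p hp hpG
    have hpE : ¬ p ∣ E := fun h => h2 (hp.dvd_of_dvd_pow (h.trans hEb))
    rw [hQ, padicValNat.mul hE0.ne' hQ0.ne', padicValNat.eq_zero_of_not_dvd hpE, zero_add, hM,
      padicValNat.mul hM0.ne' hG0.ne'] at h3
    exact ⟨h1, by omega⟩
  obtain ⟨T, hT0, hTM, hT1, hT2⟩ := exists_T b M G N hb hM0 hG0 (hM ▸ hcop)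
    (fun r hrp hr => hN r hrp (hr.trans ⟨E, by rw [hQ, ← hM]; ring⟩)) hpM
  obtain ⟨g0, hg0⟩ := hEb
  obtain ⟨a, ha⟩ : ∃ a : ℕ, a = g0 * A := ⟨_, rfl⟩
  have haQ : Nat.Coprime a (M * G) := by
    rw [ha, ← hM]
    refine Nat.Coprime.mul_left ?_ ?_
    · refine Nat.Coprime.coprime_dvd_left (k := b ^ D) ⟨E, by rw [hg0]; ring⟩ ?_
      exact Nat.Coprime.pow_left _ hcop
    · exact hA.coprime_dvd_right ⟨E, by rw [hQ]; ring⟩
  have hQr : (0 : ℝ) < Q := by exact_mod_cast hQ0
  have hfr : ∀ i, Int.fract ((b : ℝ) ^ (D + i) * x) = (rr b M G a i : ℝ) / ((M * G : ℕ) : ℝ) := by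
    intro i
    have h1 : (b : ℝ) ^ D = E * g0 := by exact_mod_cast hg0
    have h2 : (D : ℝ) = E * Q := by exact_mod_cast hQ
    have hE1 : (E : ℝ) ≠ 0 := by exact_mod_cast hE0.ne'
    have h3 : (b : ℝ) ^ (D + i) * x = ((a * b ^ i : ℕ) : ℝ) / (Q : ℕ) := by
      rw [hx, pow_add, h1, h2, ha]
      push_cast
      field_simp
    rw [h3, ← hM]
    unfold rr
    rw [← hM]
    exact Int.fract_div_natCast_eq_div_natCast_mod
  obtain ⟨u, hu⟩ : ∃ u : ℕ → ℝ, u = fun i => if α ≤ Int.fract ((b : ℝ) ^ i * x) ∧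
      Int.fract ((b : ℝ) ^ i * x) < β then 1 else 0 := ⟨_, rfl⟩
  obtain ⟨v, hv⟩ : ∃ v : ℕ → ℝ, v = fun i => u i - (β - α) := ⟨_, rfl⟩
  have hv1 : ∀ i, |v i| ≤ 1 := by
    intro i
    rw [hv, hu]
    simp only
    rw [abs_le]
    split_ifs
    · constructor <;> linarith
    · constructor <;> linarith
  have hcount : (((range L).filter fun i => α ≤ Int.fract ((b : ℝ) ^ i * x) ∧
      Int.fract ((b : ℝ) ^ i * x) < β).card : ℝ) - L * (β - α) = ∑ i ∈ range L, v i := by
    rw [hv]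
    simp only [sum_sub_distrib, sum_const, card_range, nsmul_eq_mul]
    rw [hu]
    simp only
    rw [sum_boole]
    ring
  have hGr : (0 : ℝ) < G := by exact_mod_cast hG0
  have hblock : ∀ s0, |∑ i ∈ range (T * G), v (D + s0 + i)| ≤ T := by
    intro s0
    rw [block_sum v T G (D + s0)]
    refine (abs_sum_le_sum_abs _ _).trans ?_
    have h1 : ∀ s ∈ range T, |∑ i ∈ range G, v (D + s0 + s + T * i)| ≤ 1 := by
      intro s _
      have h2 := coset_count b M G T a hb hM0 hG0 (hM ▸ hcop) haQ hT1 hT2 (s0 + s) α β hα hαβ hβ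
      have h3 : ∑ i ∈ range G, v (D + s0 + s + T * i) =
          (((range G).filter fun i => α ≤ (rr b M G a (s0 + s + T * i) : ℝ) / ((M * G : ℕ) : ℝ) ∧
            (rr b M G a (s0 + s + T * i) : ℝ) / ((M * G : ℕ) : ℝ) < β).card : ℝ) - G * (β - α) := by
        rw [hv]
        simp only [sum_sub_distrib, sum_const, card_range, nsmul_eq_mul]
        rw [hu]
        simp only
        rw [← sum_boole]
        rw [mul_sub]
        congr 1
        refine sum_congr rfl fun i _ => ?_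
        rw [show D + s0 + s + T * i = D + (s0 + s + T * i) by ring, hfr]
      rw [h3]
      exact h2
    refine (sum_le_sum h1).trans ?_
    simp
  have hTG : T * G ≤ D := by
    calc T * G ≤ M * G := Nat.mul_le_mul_right _ hTM
      _ = Q := hM.symm
      _ ≤ D := Nat.le_of_dvd hD ⟨E, by rw [hQ]; ring⟩
  have hTG0 : 0 < T * G := Nat.mul_pos hT0 hG0
  rw [hcount]
  rcases le_or_gt L D with hL | hL
  · refine (abs_sum_le v hv1 L).trans ?_
    have h1 : (L : ℝ) ≤ D := by exact_mod_cast hL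
    have h2 : (0 : ℝ) ≤ L / G := by positivity
    have h3 : (0 : ℝ) ≤ D := Nat.cast_nonneg _
    linarith
  · obtain ⟨L', rfl⟩ := Nat.exists_eq_add_of_le hL.le
    rw [sum_range_add]
    obtain ⟨B, hB⟩ : ∃ B : ℕ, B = L' / (T * G) := ⟨_, rfl⟩
    obtain ⟨R, hR⟩ : ∃ R : ℕ, R = L' % (T * G) := ⟨_, rfl⟩
    have hL' : L' = B * (T * G) + R := by
      rw [hB, hR, mul_comm]
      exact (Nat.div_add_mod _ _).symm
    have hRlt : R < T * G := by rw [hR]; exact Nat.mod_lt _ hTG0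
    have h1 := abs_sum_le v hv1 D
    have h2 : |∑ i ∈ range L', v (D + i)| ≤ B * T + D := by
      rw [hL', sum_range_add]
      refine (abs_add_le _ _).trans ?_
      have h3 := blocks_bound (fun i => v (D + i)) (T * G) T (fun s0 => by
        have := hblock s0
        simp_rw [add_assoc] at this ⊢
        exact this) B 0
      simp only [zero_add] at h3
      have h4 := abs_sum_le (fun i => v (D + (B * (T * G) + i))) (fun i => hv1 _) R
      have h5 : (R : ℝ) ≤ D := by exact_mod_cast hRlt.le.trans hTG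
      linarith
    have h3 : (B : ℝ) * T ≤ ((D + L' : ℕ) : ℝ) / G := by
      rw [le_div_iff₀ hGr]
      have : B * T * G ≤ D + L' := by
        rw [hL', mul_assoc]
        omega
      exact_mod_cast this
    refine (abs_add_le _ _).trans ?_
    linarith

end H41.PS
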