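import Mathlib

/-! # The numerical estimates -/

set_option autoImplicit false

open Finset

namespace H41.PS

lemma log_fact_ge (z : ℕ) (hz : 1 ≤ z) : z * (Real.log z - 1) ≤ Real.log z.factorial := by
  have hz0 : (0 : ℝ) < z := by exact_mod_cast hz
  have h1 : (z : ℝ) ^ z / z.factorial ≤ Real.exp z := Real.pow_div_factorial_le_exp (z : ℝ) hz0.le z
  have hf : (0 : ℝ) < z.factorial := by exact_mod_cast Nat.factorial_pos z
  have h2 := Real.log_le_log (by positivity) h1
  rw [Real.log_div (by positivity) hf.ne', Real.log_pow, Real.log_exp] at h2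
  linarith

lemma log_fact_le (N : ℕ) : Real.log N.factorial ≤ N * Real.log N := by
  have h1 : N.factorial ≤ N ^ N := Nat.factorial_le_pow N
  have h2 : ((N.factorial : ℕ) : ℝ) ≤ (N : ℝ) ^ N := by exact_mod_cast h1
  have h3 := Real.log_le_log (by exact_mod_cast Nat.factorial_pos N) h2
  rwa [Real.log_pow] at h3

lemma pi_bound (z : ℕ) (hz : 2 ≤ z) (N y : ℝ) (hN : 0 < N) (hy : 1 ≤ y) (h1 : 64 * y ^ 3 ≤ N)
    (h2 : (z : ℝ) ^ 2 ≤ 4 * (N * y)) (h3 : y / 2 ≤ Real.log z) :
    (Nat.primeCounting z : ℝ) * z ≤ 24 * N := by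
  have hz1 : (1 : ℝ) < z := by exact_mod_cast (by omega : 1 < z)
  have hz0 : (0 : ℝ) < z := by linarith
  have h4 := Chebyshev.pi_le_log4_mul_div hz1
  rw [Nat.floor_natCast] at h4
  have hlz : 0 < Real.log z := Real.log_pos hz1
  have e1 : Real.log √(z : ℝ) = Real.log z / 2 := Real.log_sqrt hz0.le
  rw [e1] at h4
  have hs0 : (0 : ℝ) ≤ √(z : ℝ) := Real.sqrt_nonneg _
  have hs2 : √(z : ℝ) ^ 2 = z := Real.sq_sqrt hz0.le
  have h5 : Real.log 4 ≤ 1.4 := by
    have : Real.log 4 = 2 * Real.log 2 := by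
      rw [show (4 : ℝ) = 2 ^ 2 by norm_num, Real.log_pow]
      push_cast
      ring
    rw [this]
    have := Real.log_two_lt_d9
    linarith
  have h5' : 0 < Real.log 4 := Real.log_pos (by norm_num)
  have h6 : Real.log 4 * z / (Real.log z / 2) * z ≤ 22.4 * N := by
    have e2 : Real.log 4 * z / (Real.log z / 2) * z = 2 * Real.log 4 * z ^ 2 / Real.log z := by
      field_simp
    rw [e2, div_le_iff₀ hlz]
    have h7 : 2 * Real.log 4 * (z : ℝ) ^ 2 ≤ 2 * 1.4 * (4 * (N * y)) := by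
      have : (0 : ℝ) ≤ z ^ 2 := by positivity
      nlinarith
    have h8 : 2 * 1.4 * (4 * (N * y)) = 22.4 * N * (y / 2) := by ring
    have h9 : 22.4 * N * (y / 2) ≤ 22.4 * N * Real.log z := by gcongr
    linarith
  have h7 : √(z : ℝ) * z ≤ N := by
    have h8 : (√(z : ℝ) * z) ^ 2 ≤ N ^ 2 := by
      rw [mul_pow, hs2]
      have h9 : ((z : ℝ) ^ 3) ^ 2 ≤ (N ^ 2) ^ 2 := by
        have h10 : ((z : ℝ) ^ 3) ^ 2 = ((z : ℝ) ^ 2) ^ 3 := by ring
        rw [h10]
        calc ((z : ℝ) ^ 2) ^ 3 ≤ (4 * (N * y)) ^ 3 := by gcongr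
          _ = N ^ 3 * (64 * y ^ 3) := by ring
          _ ≤ N ^ 3 * N := by gcongr
          _ = (N ^ 2) ^ 2 := by ring
      have h11 := abs_le_of_sq_le_sq h9 (by positivity)
      have e3 : (z : ℝ) * z ^ 2 = z ^ 3 := by ring
      rw [e3]
      exact (le_abs_self _).trans h11
    have h9 := abs_le_of_sq_le_sq h8 hN.le
    exact (le_abs_self _).trans h9
  calc (Nat.primeCounting z : ℝ) * z ≤ (Real.log 4 * z / (Real.log z / 2) + √(z : ℝ)) * z := by gcongr
    _ = Real.log 4 * z / (Real.log z / 2) * z + √(z : ℝ) * z := by ring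
    _ ≤ 24 * N := by linarith

theorem numerics (b N : ℕ) (hb : 2 ≤ b) (hN : 200 ≤ N) (h1 : 64 * Real.log N ^ 3 ≤ N)
    (h2 : 4 * (6 + Real.log 2 + 25 * Real.log b) ≤ Real.log (Real.log N)) :
    ∃ z m : ℕ, z * m ≤ N ∧ N * Real.log (Real.log N) / 4 + Real.log 2 ≤
      m * Real.log z.factorial - Real.log N.factorial / 2 - 3 / 2 * Real.log N -
        N * Real.log (2 * b) - Nat.primeCounting z * (z * Real.log b + Real.log N) := by
  obtain ⟨y, hy⟩ : ∃ y : ℝ, y = Real.log N := ⟨_, rfl⟩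
  rw [← hy] at h1 h2 ⊢
  have hNr : (200 : ℝ) ≤ N := by exact_mod_cast hN
  have hN0 : (0 : ℝ) < N := by linarith
  have hlb : 0 < Real.log b := Real.log_pos (by exact_mod_cast (by omega : 1 < b))
  have hl2 : 0 < Real.log 2 := Real.log_pos (by norm_num)
  have hly : 24 ≤ Real.log y := by nlinarith
  have hy0 : 0 < y := by
    rw [hy]
    exact Real.log_pos (by linarith)
  have hyl : Real.log y ≤ y := (Real.log_le_sub_one_of_pos hy0).trans (by linarith)
  have hy1 : 24 ≤ y := hly.trans hyl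
  obtain ⟨t, ht⟩ : ∃ t : ℝ, t = √(N * y) := ⟨_, rfl⟩
  have hNy : 0 < N * y := by positivity
  have ht0 : 0 < t := by rw [ht]; exact Real.sqrt_pos.2 hNy
  have ht2 : t ^ 2 = N * y := by rw [ht]; exact Real.sq_sqrt hNy.le
  have ht1 : 1 ≤ t := by nlinarith
  obtain ⟨z, hz⟩ : ∃ z : ℕ, z = ⌈t⌉₊ := ⟨_, rfl⟩
  have hzt : t ≤ z := by rw [hz]; exact Nat.le_ceil t
  have hzt2 : (z : ℝ) ≤ 2 * t := by
    have := Nat.ceil_lt_add_one ht0.le
    rw [← hz] at this
    linarith
  have hz0 : (0 : ℝ) < z := by linarith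
  have hzt3 : (z : ℝ) ^ 2 ≤ 4 * (N * y) := by
    rw [← ht2]
    nlinarith
  have hlz : (y + Real.log y) / 2 ≤ Real.log z := by
    have h3 := Real.log_le_log ht0 hzt
    have h4 : Real.log t = (y + Real.log y) / 2 := by
      rw [ht, Real.log_sqrt hNy.le, Real.log_mul hN0.ne' hy0.ne', ← hy]
    linarith
  have hzy : (z : ℝ) * y ≤ N / 4 := by
    have h3 : ((z : ℝ) * y) ^ 2 ≤ (N / 4) ^ 2 := by
      calc ((z : ℝ) * y) ^ 2 = z ^ 2 * y ^ 2 := by ring
        _ ≤ 4 * (N * y) * y ^ 2 := by gcongr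
        _ = N * (64 * y ^ 3) / 16 := by ring
        _ ≤ N * N / 16 := by gcongr
        _ = (N / 4) ^ 2 := by ring
    exact (le_abs_self _).trans (abs_le_of_sq_le_sq h3 (by positivity))
  have hz2 : 2 ≤ z := by
    have h3 : (4 : ℝ) ≤ t ^ 2 := by rw [ht2]; nlinarith
    have h4 : (2 : ℝ) ≤ t := by nlinarith
    have h5 : (2 : ℝ) ≤ z := h4.trans hzt
    exact_mod_cast h5
  have hpi := pi_bound z hz2 N y hN0 (by linarith) h1 hzt3 (by linarith)
  have hpi2 : (Nat.primeCounting z : ℝ) ≤ z := by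
    have h3 : Nat.primeCounting z ≤ z := by
      rw [Nat.primeCounting, Nat.primeCounting', Nat.count_eq_card_filter_range]
      have h4 : (filter Nat.Prime (range (z + 1))) ⊆ Finset.Icc 1 z := by
        intro p hp
        rw [mem_filter, mem_range] at hp
        rw [Finset.mem_Icc]
        exact ⟨hp.2.one_lt.le, by omega⟩
      simpa using card_le_card h4
    exact_mod_cast h3
  refine ⟨z, N / z, Nat.mul_div_le N z, ?_⟩
  have hm : (N : ℝ) - z ≤ (N / z : ℕ) * z := by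
    have h3 := Nat.lt_div_mul_add (a := N) (b := z) (by omega)
    have h4 : (N : ℝ) < (N / z : ℕ) * z + z := by exact_mod_cast h3
    linarith
  have hzN : (z : ℝ) ≤ N := by nlinarith
  have h3 : ((N : ℝ) - z) * ((y + Real.log y) / 2 - 1) ≤ (N / z : ℕ) * Real.log z.factorial := by
    have h4 := log_fact_ge z (by omega)
    have h5 : (0 : ℝ) ≤ (y + Real.log y) / 2 - 1 := by linarith
    calc ((N : ℝ) - z) * ((y + Real.log y) / 2 - 1) ≤
          ((N / z : ℕ) * z) * ((y + Real.log y) / 2 - 1) := by gcongr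
      _ ≤ ((N / z : ℕ) * z) * (Real.log z - 1) := by gcongr
      _ = (N / z : ℕ) * (z * (Real.log z - 1)) := by ring
      _ ≤ _ := by gcongr
  have h4 := log_fact_le N
  rw [← hy] at h4
  have h5 : (Nat.primeCounting z : ℝ) * (z * Real.log b + y) ≤ 24 * N * Real.log b + N / 4 := by
    have h6 : (Nat.primeCounting z : ℝ) * y ≤ z * y := by gcongr
    have h7 : (Nat.primeCounting z : ℝ) * z * Real.log b ≤ 24 * N * Real.log b := by gcongr
    nlinarith
  have h6 : Real.log (2 * b) = Real.log 2 + Real.log b :=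
    Real.log_mul (by norm_num) (by exact_mod_cast (by omega : b ≠ 0))
  rw [h6]
  have h7 : y ≤ N / 64 := by nlinarith [mul_pos hy0 hy0, sq_nonneg (y - 1)]
  have h8 : (z : ℝ) * ((y + Real.log y) / 2 - 1) ≤ N / 4 := by
    have h9 : (z : ℝ) * ((y + Real.log y) / 2 - 1) ≤ z * y := by
      have : (y + Real.log y) / 2 - 1 ≤ y := by linarith
      gcongr
    linarith
  have h9 : (N : ℝ) * (4 * (6 + Real.log 2 + 25 * Real.log b)) ≤ N * Real.log y := by gcongr
  have hl2' : Real.log 2 ≤ 1 := by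
    have := Real.log_two_lt_d9
    linarith
  linarith

end H41.PS
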