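import Pool.Agent.H41.PS.Size
import Pool.Agent.H41.PS.Num
import Pool.Agent.H41.PS.EMeas

/-! # The digits of the partial sums of `e` -/

set_option autoImplicit false

open Finset Filter

namespace H41.PS

/-- the partial sums of `e` -/
noncomputable def eN (N : ℕ) : ℝ := ∑ n ∈ range (N + 1), 1 / (n.factorial : ℝ)

/-- the numerators -/
def aN (N : ℕ) : ℕ := ∑ n ∈ range (N + 1), N.factorial / n.factorial

lemma eN_eq (N : ℕ) : eN N = aN N / N.factorial := by
  unfold eN aN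
  push_cast
  rw [sum_div]
  refine sum_congr rfl fun n hn => ?_
  rw [mem_range] at hn
  have h1 : n.factorial ∣ N.factorial := Nat.factorial_dvd_factorial (by omega)
  have hn0 : (n.factorial : ℝ) ≠ 0 := by exact_mod_cast n.factorial_ne_zero
  have hN0 : (N.factorial : ℝ) ≠ 0 := by exact_mod_cast N.factorial_ne_zero
  rw [Nat.cast_div h1 hn0]
  field_simp

lemma e_sub (N : ℕ) (hN : 1 ≤ N) : |Real.exp 1 - eN N| ≤ 2 / (N + 1).factorial := by
  have h1 := Real.exp_bound (x := 1) (by simp) (n := N + 1) (by omega)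
  simp only [one_pow, abs_one, one_mul] at h1
  have h2 : eN N = ∑ m ∈ range (N + 1), 1 / (m.factorial : ℝ) := rfl
  rw [h2]
  refine h1.trans ?_
  have hf : (0 : ℝ) < (N + 1).factorial := by exact_mod_cast Nat.factorial_pos _
  have hN1 : (0 : ℝ) < ((N + 1 : ℕ) : ℝ) := by positivity
  rw [div_le_div_iff₀ (by positivity) hf]
  have h3 : ((N + 1).succ : ℝ) ≤ 2 * ((N + 1 : ℕ) : ℝ) := by
    have : (N + 1).succ ≤ 2 * (N + 1) := by omega
    exact_mod_cast this
  nlinarith

/-- the reduced fraction -/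
lemma reduced (N : ℕ) (hN : 200 ≤ N) : ∃ A D : ℕ, 0 < D ∧ D ∣ N.factorial ∧ Nat.Coprime A D ∧
    eN N = A / D ∧ Real.log N.factorial / 2 - 3 / 2 * Real.log N ≤ Real.log D := by
  obtain ⟨g, hg⟩ : ∃ g : ℕ, g = Nat.gcd (aN N) N.factorial := ⟨_, rfl⟩
  have hf0 := Nat.factorial_pos N
  have hg0 : 0 < g := by rw [hg]; exact Nat.gcd_pos_of_pos_right _ hf0
  obtain ⟨A, hA⟩ : g ∣ aN N := by rw [hg]; exact Nat.gcd_dvd_left _ _
  obtain ⟨D, hD⟩ : g ∣ N.factorial := by rw [hg]; exact Nat.gcd_dvd_right _ _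
  have hD0 : 0 < D := Nat.pos_of_ne_zero fun h => by rw [h, mul_zero] at hD; omega
  have hcop : Nat.Coprime A D := by
    have h1 := Nat.coprime_div_gcd_div_gcd (m := aN N) (n := N.factorial) (by rw [← hg]; exact hg0)
    rwa [← hg, hA, hD, Nat.mul_div_cancel_left _ hg0, Nat.mul_div_cancel_left _ hg0] at h1
  have hgr : (0 : ℝ) < g := by exact_mod_cast hg0
  have hDr : (0 : ℝ) < D := by exact_mod_cast hD0
  have heq : eN N = A / D := by
    rw [eN_eq, hA, hD]
    push_cast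
    field_simp
  refine ⟨A, D, hD0, ⟨g, by rw [hD]; ring⟩, hcop, heq, ?_⟩
  obtain ⟨n, hn1, hn2⟩ := EMeas.lower D hD0 A
  have h1 : |(D : ℝ) * Real.exp 1 - ((A : ℤ) : ℝ)| ≤ D * (2 / (N + 1).factorial) := by
    have h2 : (D : ℝ) * Real.exp 1 - ((A : ℤ) : ℝ) = D * (Real.exp 1 - eN N) := by
      rw [heq]
      push_cast
      field_simp
    rw [h2, abs_mul, abs_of_pos hDr]
    exact mul_le_mul_of_nonneg_left (e_sub N (by omega)) hDr.le
  have hF : (0 : ℝ) < (N + 1).factorial := by exact_mod_cast Nat.factorial_pos _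
  have hn0 : (0 : ℝ) ≤ n := Nat.cast_nonneg _
  have h2 : ((N + 1).factorial : ℝ) ≤ (16 * (4 * n + 3)) * D ^ 2 := by
    have h3 := hn2.trans h1
    rw [div_le_iff₀ (by positivity)] at h3
    have h4 : (D : ℝ) * (2 / (N + 1).factorial) * (8 * (4 * n + 3) * D) =
        (16 * (4 * n + 3)) * D ^ 2 / (N + 1).factorial := by
      ring
    rw [h4, le_div_iff₀ hF, one_mul] at h3
    exact h3
  have hn : n < 3 + N * N := by
    have h3 : D ≤ N ^ N := (Nat.le_of_dvd hf0 ⟨g, by rw [hD]; ring⟩).trans (Nat.factorial_le_pow N)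
    have h4 : N ^ N ≤ (2 ^ N) ^ N := Nat.pow_le_pow_left Nat.lt_two_pow_self.le N
    have h5 : 2 ^ n < 2 ^ (3 + N * N) := by
      rw [pow_add, pow_mul]
      omega
    exact (Nat.pow_lt_pow_iff_right (by norm_num)).1 h5
  have h3 : (16 * (4 * n + 3) : ℝ) ≤ (N : ℝ) ^ 3 := by
    have h4 : (n : ℝ) ≤ 3 + (N : ℝ) * N := by exact_mod_cast hn.le
    have h5 : (200 : ℝ) ≤ N := by exact_mod_cast hN
    have h6 : (200 : ℝ) * (N * N) ≤ (N : ℝ) * (N * N) := by gcongr
    nlinarith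
  have h4 : (N.factorial : ℝ) ≤ (N : ℝ) ^ 3 * D ^ 2 := by
    calc (N.factorial : ℝ) ≤ (N + 1).factorial := by exact_mod_cast Nat.factorial_le (by omega)
      _ ≤ _ := h2
      _ ≤ _ := by gcongr
  have hNr : (0 : ℝ) < N := by exact_mod_cast (by omega : 0 < N)
  have h5 := Real.log_le_log (by exact_mod_cast hf0) h4
  rw [Real.log_mul (by positivity) (by positivity), Real.log_pow, Real.log_pow] at h5
  push_cast at h5
  linarith

theorem intervals (b : ℕ) (hb : 2 ≤ b) : ∃ N₀ : ℕ, ∀ N : ℕ, N₀ ≤ N → ∀ L : ℕ,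
    N.factorial ^ 2 ≤ L → ∀ α β : ℝ, 0 ≤ α → α ≤ β → β ≤ 1 →
    |(((range L).filter fun i => α ≤ Int.fract ((b : ℝ) ^ i * eN N) ∧
      Int.fract ((b : ℝ) ^ i * eN N) < β).card : ℝ) / L - (β - α)| ≤
      Real.exp (-(N * Real.log (Real.log N) / 4)) := by
  have hlog : Tendsto (fun N : ℕ => Real.log (N : ℝ)) atTop atTop :=
    Real.tendsto_log_atTop.comp tendsto_natCast_atTop_atTop
  have hloglog : Tendsto (fun N : ℕ => Real.log (Real.log (N : ℝ))) atTop atTop :=
    Real.tendsto_log_atTop.comp hlog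
  have h1 : ∀ᶠ N : ℕ in atTop, 4 * (6 + Real.log 2 + 25 * Real.log b) ≤ Real.log (Real.log N) :=
    hloglog.eventually_ge_atTop _
  have h2 : ∀ᶠ N : ℕ in atTop, 64 * Real.log N ^ 3 ≤ N := by
    have h3 := (isLittleO_log_rpow_rpow_atTop (r := 3) (s := 1) one_pos).bound
      (c := 1 / 64) (by norm_num)
    have h4 := tendsto_natCast_atTop_atTop.eventually h3
    filter_upwards [h4, eventually_ge_atTop 1] with N h5 h6
    rw [Real.rpow_one, Real.norm_of_nonneg (Nat.cast_nonneg N), Real.norm_eq_abs] at h5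
    have h7 := (le_abs_self _).trans h5
    have h8 : Real.log (N : ℝ) ^ (3 : ℝ) = Real.log N ^ 3 := by
      rw [← Real.rpow_natCast]
      norm_num
    rw [h8] at h7
    linarith
  obtain ⟨N₀, hN₀⟩ := eventually_atTop.1 (h1.and (h2.and (eventually_ge_atTop 200)))
  refine ⟨N₀, fun N hN L hL α β hα hαβ hβ => ?_⟩
  obtain ⟨h3, h4, h5⟩ := hN₀ N hN
  obtain ⟨z, m, hzm, hnum⟩ := numerics b N hb h5 h4 h3
  obtain ⟨A, D, hD0, hDN, hcop, heq, hlogD⟩ := reduced N h5
  obtain ⟨G, hG0, hGD, hGp, hGl⟩ := exists_G b N z m D hb (by omega) hzm hD0 hDN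
  have hprimes : ∀ r : ℕ, r.Prime → r ∣ D → r ≤ N := fun r hrp hr =>
    (Nat.Prime.dvd_factorial hrp).1 (hr.trans hDN)
  have h6 := freq (eN N) b D A N G hb hD0 hcop heq hGD hprimes hGp α β hα hαβ hβ L
  obtain ⟨ε, hε⟩ : ∃ ε : ℝ, ε = Real.exp (-(N * Real.log (Real.log N) / 4)) := ⟨_, rfl⟩
  rw [← hε]
  have hf0 : (0 : ℝ) < N.factorial := by exact_mod_cast Nat.factorial_pos N
  have hGr : (0 : ℝ) < G := by exact_mod_cast hG0
  have hL' : (N.factorial : ℝ) ^ 2 ≤ L := by exact_mod_cast hL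
  have hL0 : (0 : ℝ) < L := lt_of_lt_of_le (by positivity) hL'
  have hDf : (D : ℝ) ≤ N.factorial := by exact_mod_cast Nat.le_of_dvd (Nat.factorial_pos N) hDN
  have hε0 : 0 < ε := by rw [hε]; exact Real.exp_pos _
  have h7 : 1 / (G : ℝ) ≤ ε / 2 := by
    have h8 : N * Real.log (Real.log N) / 4 + Real.log 2 ≤ Real.log G := by linarith
    have h9 := Real.exp_le_exp.2 h8
    rw [Real.exp_log hGr, Real.exp_add, Real.exp_log (by norm_num)] at h9
    rw [hε, Real.exp_neg, div_le_iff₀ hGr]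
    have h10 := Real.exp_pos (N * Real.log (Real.log N) / 4)
    have h11 : (Real.exp (N * Real.log (Real.log N) / 4))⁻¹ / 2 * G =
      G / (Real.exp (N * Real.log (Real.log N) / 4) * 2) := by
      field_simp
    rw [h11, le_div_iff₀ (by positivity), one_mul]
    exact h9
  have h8 : 2 / (N.factorial : ℝ) ≤ ε / 2 := by
    have hN0 : (200 : ℝ) ≤ N := by exact_mod_cast h5
    have hl2 : 0 < Real.log 2 := Real.log_pos (by norm_num)
    have hl2' : Real.log 2 ≤ 1 := by
      have := Real.log_two_lt_d9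
      linarith
    have hlb : 0 < Real.log b := Real.log_pos (by exact_mod_cast (by omega : 1 < b))
    have hly : 24 ≤ Real.log (Real.log N) := by nlinarith
    have hy0 : 0 < Real.log N := Real.log_pos (by linarith)
    have hyl : Real.log (Real.log N) ≤ Real.log N := (Real.log_le_sub_one_of_pos hy0).trans (by linarith)
    have h9 := log_fact_ge N (by omega)
    have h10 : N * Real.log (Real.log N) / 4 + 2 * Real.log 2 ≤ Real.log N.factorial := by
      nlinarith
    have h11 := Real.exp_le_exp.2 h10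
    rw [Real.exp_log hf0, Real.exp_add, mul_comm 2, Real.exp_mul, Real.exp_log (by norm_num)] at h11
    have h12 : ((2 : ℝ) ^ (2 : ℝ)) = 4 := by norm_num
    rw [h12] at h11
    rw [hε, Real.exp_neg, div_le_iff₀ hf0]
    have h13 : (Real.exp (N * Real.log (Real.log N) / 4))⁻¹ / 2 * N.factorial =
      N.factorial / (Real.exp (N * Real.log (Real.log N) / 4) * 2) := by
      field_simp
    rw [h13, le_div_iff₀ (by positivity)]
    linarith
  have h9 : (2 * (D : ℝ)) / L ≤ 2 / N.factorial := by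
    rw [div_le_div_iff₀ hL0 hf0]
    nlinarith
  have h10 : ∀ c : ℝ, |c - L * (β - α)| ≤ L / G + 2 * D → |c / L - (β - α)| ≤ ε := by
    intro c hc
    have e1 : c / L - (β - α) = (c - L * (β - α)) / L := by field_simp
    rw [e1, abs_div, abs_of_pos hL0, div_le_iff₀ hL0]
    refine hc.trans ?_
    have e2 : (L : ℝ) / G = L * (1 / G) := by ring
    have h11 : (L : ℝ) * (1 / G) ≤ L * (ε / 2) := by gcongr
    rw [div_le_iff₀ hL0] at h9
    have h12 : 2 / (N.factorial : ℝ) * L ≤ ε / 2 * L := by gcongr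
    linarith
  exact h10 _ h6

end H41.PS
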