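import Pool.Agent.H41.Rand.NT2

/-! # The powers of `b` modulo `Q = M G` run through whole classes modulo `M` -/

set_option autoImplicit false

open Finset

namespace H41.PS

open H41.Rand

/-- `v_p (b ^ (p - 1) - 1)` -/
def cc (b p : ℕ) : ℕ := padicValNat p (b ^ (p - 1) - 1)

lemma lte_odd (p b : ℕ) (hp : p.Prime) (hb : 2 ≤ b) (hpb : ¬ p ∣ b) (hodd : Odd p) :
    1 ≤ cc b p ∧ ∀ m : ℕ, 0 < m → padicValNat p (b ^ ((p - 1) * m) - 1) = cc b p + padicValNat p m := by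
  have := Fact.mk hp
  have hcop : Nat.Coprime b p := (Nat.coprime_comm.1 ((Nat.Prime.coprime_iff_not_dvd hp).2 hpb))
  have h4 := Nat.ModEq.pow_totient hcop
  rw [Nat.totient_prime hp] at h4
  have h5 : p ∣ b ^ (p - 1) - 1 := (Nat.modEq_iff_dvd' (Nat.one_le_pow _ _ (by omega))).1 h4.symm
  have h6 : 1 < b ^ (p - 1) := Nat.one_lt_pow (by have := hp.two_le; omega) (by omega)
  refine ⟨one_le_padicValNat_of_dvd (by omega) h5, fun m hm => ?_⟩
  have h7 := padicValNat.pow_sub_pow (p := p) hodd (x := b ^ (p - 1)) (y := 1) h6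
    (by simpa using h5) (fun h => hpb (hp.dvd_of_dvd_pow h)) (n := m) (by omega)
  rw [one_pow, ← pow_mul] at h7
  exact h7

lemma cc_le (p b : ℕ) (hp : p.Prime) (hb : 2 ≤ b) : p ^ cc b p ≤ b ^ p := by
  have := Fact.mk hp
  have h6 : 1 < b ^ (p - 1) := Nat.one_lt_pow (by have := hp.two_le; omega) (by omega)
  have h1 : p ^ cc b p ≤ b ^ (p - 1) - 1 := Nat.le_of_dvd (by omega) pow_padicValNat_dvd
  have h2 : b ^ (p - 1) ≤ b ^ p := Nat.pow_le_pow_right (by omega) (by omega)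
  omega

lemma exists_t' (p b Q u d c : ℕ) (hp : p.Prime) (hb : 2 ≤ b) (hd : 0 < d)
    (hlte : ∀ m : ℕ, 0 < m → padicValNat p (b ^ (d * m) - 1) = c + padicValNat p m)
    (hpd : ¬ p ∣ d) (hpQ : ¬ p ∣ Q) (hQ : 0 < Q) (hcop : Nat.Coprime b Q) (hu : c + 1 ≤ u)
    (hr : ∀ r : ℕ, r.Prime → r ∣ Q → r ≤ p ^ (u - c)) :
    ∃ t : ℕ, 0 < t ∧ p ^ (u - 1) * Q ∣ b ^ t - 1 ∧ padicValNat p t = u - 1 - c := by
  have := Fact.mk hp
  obtain ⟨E, hE⟩ : ∃ E : ℕ, E = Q * ∏ r ∈ Q.primeFactors, ordCompl[p] (r - 1) := ⟨_, rfl⟩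
  have hr1 : ∀ r ∈ Q.primeFactors, r - 1 ≠ 0 := by
    intro r hr
    have := (Nat.prime_of_mem_primeFactors hr).two_le
    omega
  have hpE : ¬ p ∣ E := by
    rw [hE]
    intro h
    rcases hp.dvd_mul.1 h with h | h
    · exact hpQ h
    · obtain ⟨r, hr, h2⟩ := (Prime.dvd_finsetProd_iff (Nat.prime_iff.1 hp) _).1 h
      exact Nat.not_dvd_ordCompl hp (hr1 r hr) h2
  have hE0 : 0 < E := Nat.pos_of_ne_zero fun h => hpE (h ▸ dvd_zero p)
  obtain ⟨t, ht⟩ : ∃ t : ℕ, t = d * (p ^ (u - 1 - c) * E) := ⟨_, rfl⟩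
  have hpp := hp.pos
  have ht0 : 0 < t := by rw [ht]; positivity
  have hbt : 1 < b ^ t := Nat.one_lt_pow ht0.ne' (by omega)
  have hv : padicValNat p (b ^ t - 1) = u - 1 := by
    rw [ht, hlte _ (by positivity), padicValNat.mul (by positivity) hE0.ne',
      padicValNat.prime_pow, padicValNat.eq_zero_of_not_dvd hpE]
    omega
  have hne : b ^ t - 1 ≠ 0 := by omega
  refine ⟨t, ht0, ?_, ?_⟩
  · refine Nat.Coprime.mul_dvd_of_dvd_of_dvd ?_ ?_ ?_
    · exact Nat.Coprime.pow_left _ ((Nat.Prime.coprime_iff_not_dvd hp).2 hpQ)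
    · rw [← hv]
      exact pow_padicValNat_dvd
    · rw [Nat.dvd_iff_prime_pow_dvd_dvd]
      intro r k hrp hrk
      rcases Nat.eq_zero_or_pos k with hk | hk
      · subst hk; simp
      have hrQ : r ∣ Q := (dvd_pow_self r hk.ne').trans hrk
      have hrm : r ∈ Q.primeFactors := Nat.mem_primeFactors.2 ⟨hrp, hrQ, hQ.ne'⟩
      have h1 : Nat.totient (r ^ k) ∣ t := by
        rw [Nat.totient_prime_pow hrp hk]
        have h2 : r ^ (k - 1) ∣ Q := (pow_dvd_pow r (by omega)).trans hrk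
        have h3 : r - 1 = p ^ (padicValNat p (r - 1)) * ordCompl[p] (r - 1) := by
          rw [← Nat.factorization_def _ hp]
          exact (Nat.ordProj_mul_ordCompl_eq_self (r - 1) p).symm
        have h4 : padicValNat p (r - 1) ≤ u - 1 - c := by
          have h5 : p ^ padicValNat p (r - 1) ≤ r - 1 :=
            Nat.le_of_dvd (Nat.pos_of_ne_zero (hr1 r hrm)) pow_padicValNat_dvd
          have h6 : r - 1 < p ^ (u - c) := by
            have := hr r hrp hrQ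
            have := hrp.two_le
            omega
          have h7 := (Nat.pow_lt_pow_iff_right hp.one_lt).1 (h5.trans_lt h6)
          omega
        have h5 : ordCompl[p] (r - 1) ∣ ∏ r ∈ Q.primeFactors, ordCompl[p] (r - 1) :=
          dvd_prod_of_mem (fun r => ordCompl[p] (r - 1)) hrm
        calc r ^ (k - 1) * (r - 1) = r ^ (k - 1) * (p ^ (padicValNat p (r - 1)) * ordCompl[p] (r - 1)) := by
              rw [← h3]
          _ = p ^ (padicValNat p (r - 1)) * (r ^ (k - 1) * ordCompl[p] (r - 1)) := by ring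
          _ ∣ p ^ (u - 1 - c) * (Q * ∏ r ∈ Q.primeFactors, ordCompl[p] (r - 1)) :=
              mul_dvd_mul (pow_dvd_pow p h4) (mul_dvd_mul h2 h5)
          _ ∣ t := by rw [ht, hE]; exact dvd_mul_left _ _
      have h2 : Nat.Coprime b (r ^ k) := hcop.coprime_dvd_right hrk
      obtain ⟨m, hm⟩ := h1
      have h3 := (Nat.ModEq.pow_totient h2).pow m
      rw [← pow_mul, ← hm, one_pow] at h3
      exact (Nat.modEq_iff_dvd' (by omega)).1 h3.symm
  · rw [ht, padicValNat.mul hd.ne' (by positivity), padicValNat.mul (by positivity) hE0.ne',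
      padicValNat.prime_pow, padicValNat.eq_zero_of_not_dvd hpE,
      padicValNat.eq_zero_of_not_dvd hpd]
    omega

/-- the order of `b` modulo `M` -/
lemma exists_order (b M : ℕ) (hb : 2 ≤ b) (hM : 0 < M) (hcop : Nat.Coprime b M) :
    ∃ T : ℕ, 0 < T ∧ T ≤ M ∧ M ∣ b ^ T - 1 ∧ ∀ t, M ∣ b ^ t - 1 → T ∣ t := by
  classical
  have h1 : ∃ t : ℕ, 0 < t ∧ M ∣ b ^ t - 1 := by
    refine ⟨Nat.totient M, Nat.totient_pos.2 hM, ?_⟩
    exact (Nat.modEq_iff_dvd' (Nat.one_le_pow _ _ (by omega))).1 (Nat.ModEq.pow_totient hcop).symm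
  obtain ⟨h2, h3⟩ := Nat.find_spec h1
  refine ⟨Nat.find h1, h2, ?_, h3, fun t ht => ?_⟩
  · refine (Nat.find_min' h1 ⟨Nat.totient_pos.2 hM, ?_⟩).trans (Nat.totient_le M)
    exact (Nat.modEq_iff_dvd' (Nat.one_le_pow _ _ (by omega))).1 (Nat.ModEq.pow_totient hcop).symm
  · have h4 := Nat.dvd_gcd h3 ht
    rw [Nat.pow_sub_one_gcd_pow_sub_one] at h4
    have h5 : 0 < Nat.gcd (Nat.find h1) t := Nat.gcd_pos_of_pos_left _ h2
    have h6 := Nat.find_min' h1 ⟨h5, h4⟩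
    have h7 := Nat.gcd_dvd_left (Nat.find h1) t
    have h8 := Nat.le_of_dvd h2 h7
    have h9 : Nat.gcd (Nat.find h1) t = Nat.find h1 := by omega
    rw [← h9]
    exact Nat.gcd_dvd_right _ _

theorem exists_T (b M G N : ℕ) (hb : 2 ≤ b) (hM : 0 < M) (hG : 0 < G)
    (hcop : Nat.Coprime b (M * G))
    (hN : ∀ r : ℕ, r.Prime → r ∣ M * G → r ≤ N)
    (h : ∀ p : ℕ, p.Prime → p ∣ G → Odd p ∧ padicValNat p M = cc b p + Nat.log p N) :
    ∃ T : ℕ, 0 < T ∧ T ≤ M ∧ M ∣ b ^ T - 1 ∧ ∀ i : ℕ, 0 < i → M * G ∣ b ^ (T * i) - 1 → G ∣ i := by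
  obtain ⟨T, hT0, hTM, hT1, hT2⟩ := exists_order b M hb hM (hcop.coprime_dvd_right (dvd_mul_right _ _))
  refine ⟨T, hT0, hTM, hT1, fun i hi hiQ => ?_⟩
  have hv : ∀ p : ℕ, p.Prime → p ∣ G → padicValNat p G ≤ padicValNat p i := by
    intro p hp hpG
    have := Fact.mk hp
    obtain ⟨hodd, hm⟩ := h p hp hpG
    have hpb : ¬ p ∣ b := by
      intro hpb
      have h1 := Nat.dvd_gcd hpb (hpG.mul_left M)
      rw [hcop] at h1
      exact hp.one_lt.ne' (Nat.dvd_one.1 h1)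
    obtain ⟨hc1, hlte⟩ := lte_odd p b hp hb hpb hodd
    obtain ⟨m, hm'⟩ : ∃ m : ℕ, m = padicValNat p M := ⟨_, rfl⟩
    obtain ⟨M', hM'⟩ : p ^ m ∣ M := by rw [hm']; exact pow_padicValNat_dvd
    have hM'0 : 0 < M' := Nat.pos_of_ne_zero fun h => by rw [h, mul_zero] at hM'; omega
    have hpM' : ¬ p ∣ M' := by
      intro h1
      have h2 : p ^ (m + 1) ∣ M := by
        rw [hM', pow_succ]
        exact mul_dvd_mul_left _ h1
      have h3 := (padicValNat_dvd_iff_le hM.ne').1 h2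
      omega
    have hp1 : ¬ p ∣ p - 1 := by
      intro h1
      have := Nat.le_of_dvd (by have := hp.two_le; omega) h1
      have := hp.two_le
      omega
    obtain ⟨t, ht0, ht1, ht2⟩ := exists_t' p b M' (m + 1) (p - 1) (cc b p) hp hb
      (by have := hp.two_le; omega) hlte hp1 hpM' hM'0
      (hcop.coprime_dvd_right ⟨p ^ m * G, by rw [hM']; ring⟩) (by omega)
      (fun r hrp hrM => by
        have h1 : r ≤ N := hN r hrp (hrM.trans ⟨p ^ m * G, by rw [hM']; ring⟩)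
        have h2 : m + 1 - cc b p = Nat.log p N + 1 := by omega
        rw [h2]
        exact h1.trans (Nat.lt_pow_succ_log_self hp.one_lt N).le)
    rw [Nat.add_sub_cancel, ← hM'] at ht1
    have h3 : T ∣ t := hT2 t ht1
    have h4 : padicValNat p T ≤ padicValNat p t :=
      (padicValNat_dvd_iff_le ht0.ne').1 (pow_padicValNat_dvd.trans h3)
    have h5 : M * G ∣ b ^ ((p - 1) * (T * i)) - 1 := by
      refine hiQ.trans ?_
      have := Nat.sub_dvd_pow_sub_pow (b ^ (T * i)) 1 (p - 1)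
      rwa [one_pow, ← pow_mul, mul_comm (T * i)] at this
    have hTi : 0 < T * i := Nat.mul_pos hT0 hi
    have h6 : b ^ ((p - 1) * (T * i)) - 1 ≠ 0 := by
      have h7 : 1 < b ^ ((p - 1) * (T * i)) := Nat.one_lt_pow
        (Nat.mul_pos (by have := hp.two_le; omega) hTi).ne' (by omega)
      omega
    have h7 : padicValNat p (M * G) ≤ padicValNat p (b ^ ((p - 1) * (T * i)) - 1) :=
      (padicValNat_dvd_iff_le h6).1 (pow_padicValNat_dvd.trans h5)
    rw [hlte _ hTi, padicValNat.mul hM.ne' hG.ne', padicValNat.mul hT0.ne' hi.ne'] at h7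
    omega
  rw [Nat.dvd_iff_prime_pow_dvd_dvd]
  intro p k hp hk
  have := Fact.mk hp
  rcases Nat.eq_zero_or_pos k with hk0 | hk0
  · subst hk0; simp
  have h1 := hv p hp ((dvd_pow_self p hk0.ne').trans hk)
  have h2 := (padicValNat_dvd_iff_le hG.ne').1 hk
  exact (padicValNat_dvd_iff_le hi.ne').2 (h2.trans h1)

end H41.PS
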