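import Pool.Agent.H41.PS.Freq

/-! # The size of `G` -/

set_option autoImplicit false

open Finset

namespace H41.PS

open H41.Rand

lemma padic_prod (P : Finset ℕ) (hP : ∀ p ∈ P, p.Prime) (w : ℕ → ℕ) (q : ℕ) (hq : q.Prime) :
    padicValNat q (∏ p ∈ P, p ^ w p) = if q ∈ P then w q else 0 := by
  classical
  have := Fact.mk hq
  induction P using Finset.induction_on with
  | empty => simp
  | insert a S ha ih =>
    have ha' := hP a (mem_insert_self _ _)
    have := Fact.mk ha'
    have hS := ih fun p hp => hP p (mem_insert_of_mem hp)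
    have h0 : ∏ p ∈ S, p ^ w p ≠ 0 :=
      prod_ne_zero_iff.2 fun p hp => pow_ne_zero _ (hP p (mem_insert_of_mem hp)).ne_zero
    rw [prod_insert ha, padicValNat.mul (pow_ne_zero _ ha'.ne_zero) h0, hS]
    rcases eq_or_ne q a with h | h
    · subst h
      rw [padicValNat.prime_pow, if_neg ha, if_pos (mem_insert_self _ _), add_zero]
    · have h1 : padicValNat q (a ^ w a) = 0 := by
        refine padicValNat.eq_zero_of_not_dvd fun h2 => h ?_
        exact (Nat.prime_dvd_prime_iff_eq hq ha').1 (hq.dvd_of_dvd_pow h2)
      rw [h1, zero_add]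
      by_cases h2 : q ∈ S
      · rw [if_pos h2, if_pos (mem_insert_of_mem h2)]
      · rw [if_neg h2, if_neg]
        rw [mem_insert]
        tauto

lemma fact_pow_dvd (z m : ℕ) : z.factorial ^ m ∣ (z * m).factorial := by
  induction m with
  | zero => simp
  | succ m ih =>
    rw [pow_succ, mul_add, mul_one]
    exact (mul_dvd_mul ih dvd_rfl).trans (Nat.factorial_mul_factorial_dvd_factorial_add _ _)

lemma padic_fact_le (p N : ℕ) (hp : p.Prime) : padicValNat p N.factorial ≤ N := by
  have := Fact.mk hp
  have h1 := sub_one_mul_padicValNat_factorial (p := p) N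
  have h2 : 1 * padicValNat p N.factorial ≤ (p - 1) * padicValNat p N.factorial :=
    Nat.mul_le_mul_right _ (by have := hp.two_le; omega)
  omega

lemma log_eq_sum (n : ℕ) : Real.log n = ∑ p ∈ n.primeFactors, (padicValNat p n : ℝ) * Real.log p := by
  rw [Real.log_nat_eq_sum_factorization, Finsupp.sum, Nat.support_factorization]
  refine sum_congr rfl fun p hp => ?_
  rw [Nat.factorization_def _ (Nat.prime_of_mem_primeFactors hp)]

theorem exists_G (b N z m D : ℕ) (hb : 2 ≤ b) (hN : 1 ≤ N) (hz : z * m ≤ N) (hD0 : 0 < D)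
    (hD : D ∣ N.factorial) :
    ∃ G : ℕ, 0 < G ∧ G ∣ D ∧
      (∀ p : ℕ, p.Prime → p ∣ G → Odd p ∧ ¬ p ∣ b ∧
        padicValNat p D = padicValNat p G + cc b p + Nat.log p N) ∧
      m * Real.log z.factorial + Real.log D - Real.log N.factorial - N * Real.log (2 * b) -
        (Nat.primeCounting z) * (z * Real.log b + Real.log N) ≤ Real.log G := by
  classical
  obtain ⟨P, hP⟩ : ∃ P : Finset ℕ, P = (range (z + 1)).filter fun p => p.Prime ∧ Odd p ∧ ¬ p ∣ b :=
    ⟨_, rfl⟩
  obtain ⟨w, hw⟩ : ∃ w : ℕ → ℕ, w = fun p => padicValNat p D - (cc b p + Nat.log p N) := ⟨_, rfl⟩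
  obtain ⟨G, hG⟩ : ∃ G : ℕ, G = ∏ p ∈ P, p ^ w p := ⟨_, rfl⟩
  have hPp : ∀ p ∈ P, p.Prime ∧ Odd p ∧ ¬ p ∣ b ∧ p ≤ z := by
    intro p hp
    rw [hP, mem_filter, mem_range] at hp
    exact ⟨hp.2.1, hp.2.2.1, hp.2.2.2, by omega⟩
  have hG0 : 0 < G := by
    rw [hG]
    exact prod_pos fun p hp => pow_pos (hPp p hp).1.pos _
  have hv : ∀ p : ℕ, p.Prime → padicValNat p G = if p ∈ P then w p else 0 := by
    intro p hp
    rw [hG]
    exact padic_prod P (fun p hp => (hPp p hp).1) w p hp
  have hbr : (0 : ℝ) < Real.log b := Real.log_pos (by exact_mod_cast (by omega : 1 < b))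
  have hlogN : (0 : ℝ) ≤ Real.log N := Real.log_nonneg (by exact_mod_cast hN)
  refine ⟨G, hG0, ?_, ?_, ?_⟩
  · rw [Nat.dvd_iff_prime_pow_dvd_dvd]
    intro p k hp hk
    have := Fact.mk hp
    have h1 := (padicValNat_dvd_iff_le hG0.ne').1 hk
    rw [hv p hp] at h1
    refine (padicValNat_dvd_iff_le hD0.ne').2 (h1.trans ?_)
    split_ifs
    · rw [hw]
      simp only
      omega
    · exact Nat.zero_le _
  · intro p hp hpG
    have := Fact.mk hp
    have h1 : 1 ≤ padicValNat p G := one_le_padicValNat_of_dvd hG0.ne' hpG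
    rw [hv p hp] at h1 ⊢
    split_ifs at h1 ⊢ with h2
    · obtain ⟨-, h3, h4, -⟩ := hPp p h2
      refine ⟨h3, h4, ?_⟩
      rw [hw] at h1 ⊢
      simp only at h1 ⊢
      omega
    · omega
  · -- the logarithm of `G`
    have hlogG : Real.log G = ∑ p ∈ P, (w p : ℝ) * Real.log p := by
      rw [hG]
      push_cast
      rw [Real.log_prod]
      · refine sum_congr rfl fun p _ => ?_
        rw [Real.log_pow]
      · intro p hp
        exact pow_ne_zero _ (by exact_mod_cast (hPp p hp).1.ne_zero)
    have hlogp : ∀ p ∈ P, (0 : ℝ) ≤ Real.log p := fun p hp =>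
      Real.log_nonneg (by exact_mod_cast (hPp p hp).1.one_lt.le)
    have h1 : ∑ p ∈ P, ((padicValNat p D : ℝ) * Real.log p - (z * Real.log b + Real.log N)) ≤
        Real.log G := by
      rw [hlogG]
      refine sum_le_sum fun p hp => ?_
      obtain ⟨hpp, -, -, hpz⟩ := hPp p hp
      have h2 : (padicValNat p D : ℝ) ≤ w p + (cc b p + Nat.log p N) := by
        have : padicValNat p D ≤ w p + (cc b p + Nat.log p N) := by
          rw [hw]
          simp only
          omega
        exact_mod_cast this
      have h3 : (cc b p : ℝ) * Real.log p ≤ z * Real.log b := by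
        have h4 : (p : ℝ) ^ cc b p ≤ (b : ℝ) ^ p := by exact_mod_cast cc_le p b hpp hb
        have hp0 : (0 : ℝ) < p := by exact_mod_cast hpp.pos
        have h5 := Real.log_le_log (by positivity) h4
        rw [Real.log_pow, Real.log_pow] at h5
        refine h5.trans ?_
        have : (p : ℝ) ≤ z := by exact_mod_cast hpz
        gcongr
      have h4 : (Nat.log p N : ℝ) * Real.log p ≤ Real.log N := by
        have h5 : p ^ Nat.log p N ≤ N := Nat.pow_log_le_self p (by omega)
        have h6 : (p : ℝ) ^ Nat.log p N ≤ N := by exact_mod_cast h5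
        have hp0 : (0 : ℝ) < p := by exact_mod_cast hpp.pos
        have h7 := Real.log_le_log (by positivity) h6
        rwa [Real.log_pow] at h7
      have h5 := mul_le_mul_of_nonneg_right h2 (hlogp p hp)
      nlinarith
    rw [sum_sub_distrib, sum_const, nsmul_eq_mul] at h1
    have hPc : (P.card : ℝ) ≤ Nat.primeCounting z := by
      have : P.card ≤ Nat.primeCounting z := by
        rw [Nat.primeCounting, Nat.primeCounting', Nat.count_eq_card_filter_range, hP]
        refine card_le_card ?_
        intro p hp
        rw [mem_filter] at hp ⊢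
        exact ⟨hp.1, hp.2.1⟩
      exact_mod_cast this
    have h2 : (P.card : ℝ) * (z * Real.log b + Real.log N) ≤
        Nat.primeCounting z * (z * Real.log b + Real.log N) := by
      gcongr
    -- the smooth part
    obtain ⟨S, hS⟩ : ∃ S : ℕ, S = z.factorial ^ m := ⟨_, rfl⟩
    have hSN : S ∣ N.factorial := by
      rw [hS]
      exact (fact_pow_dvd z m).trans (Nat.factorial_dvd_factorial hz)
    have hS0 : 0 < S := by rw [hS]; exact pow_pos (Nat.factorial_pos _) _
    obtain ⟨H, hH⟩ : ∃ H : ℕ, H = Nat.gcd S D := ⟨_, rfl⟩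
    have hH0 : 0 < H := by rw [hH]; exact Nat.gcd_pos_of_pos_left _ hS0
    have h3 : S * D ≤ H * N.factorial := by
      have h4 := Nat.gcd_mul_lcm S D
      rw [← hH] at h4
      rw [← h4]
      exact Nat.mul_le_mul_left _ (Nat.le_of_dvd (Nat.factorial_pos _) (Nat.lcm_dvd hSN hD))
    have hNf : (0 : ℝ) < N.factorial := by exact_mod_cast Nat.factorial_pos N
    have hDr : (0 : ℝ) < D := by exact_mod_cast hD0
    have hHr : (0 : ℝ) < H := by exact_mod_cast hH0
    have hSr : (0 : ℝ) < S := by exact_mod_cast hS0
    have h4 : m * Real.log z.factorial + Real.log D - Real.log N.factorial ≤ Real.log H := by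
      have h5 : (S : ℝ) * D ≤ H * N.factorial := by exact_mod_cast h3
      have h6 := Real.log_le_log (by positivity) h5
      rw [Real.log_mul hSr.ne' hDr.ne', Real.log_mul hHr.ne' hNf.ne'] at h6
      have h7 : Real.log S = m * Real.log z.factorial := by
        rw [hS]
        push_cast
        rw [Real.log_pow]
      linarith
    have h5 : Real.log H ≤ ∑ p ∈ P, (padicValNat p D : ℝ) * Real.log p + N * Real.log (2 * b) := by
      rw [log_eq_sum]
      have hsub : H.primeFactors ⊆ P ∪ (2 * b).primeFactors := by
        intro p hp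
        have hpp := Nat.prime_of_mem_primeFactors hp
        have hpH := Nat.dvd_of_mem_primeFactors hp
        have hpz : p ≤ z := by
          have h6 : p ∣ z.factorial ^ m := by
            rw [← hS]
            exact hpH.trans (by rw [hH]; exact Nat.gcd_dvd_left _ _)
          exact (Nat.Prime.dvd_factorial hpp).1 (hpp.dvd_of_dvd_pow h6)
        rw [mem_union]
        by_cases h6 : p ∣ 2 * b
        · exact Or.inr (Nat.mem_primeFactors.2 ⟨hpp, h6, by omega⟩)
        · left
          rw [hP, mem_filter, mem_range]
          refine ⟨by omega, hpp, ?_, fun h7 => h6 (h7.mul_left 2)⟩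
          rcases hpp.eq_two_or_odd' with h7 | h7
          · exact absurd ⟨b, by rw [h7]⟩ h6
          · exact h7
      have hvH : ∀ p ∈ H.primeFactors, padicValNat p H ≤ padicValNat p D ∧ padicValNat p H ≤ N := by
        intro p hp
        have hpp := Nat.prime_of_mem_primeFactors hp
        have := Fact.mk hpp
        have hHD : H ∣ D := by rw [hH]; exact Nat.gcd_dvd_right _ _
        have h6 : padicValNat p H ≤ padicValNat p D :=
          (padicValNat_dvd_iff_le hD0.ne').1 (pow_padicValNat_dvd.trans hHD)
        have h7 : padicValNat p D ≤ padicValNat p N.factorial :=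
          (padicValNat_dvd_iff_le (Nat.factorial_ne_zero _)).1 (pow_padicValNat_dvd.trans hD)
        exact ⟨h6, h6.trans (h7.trans (padic_fact_le p N hpp))⟩
      have hpos : ∀ p ∈ H.primeFactors, (0 : ℝ) ≤ Real.log p := fun p hp =>
        Real.log_nonneg (by exact_mod_cast (Nat.prime_of_mem_primeFactors hp).one_lt.le)
      have h6 : ∑ p ∈ H.primeFactors, (padicValNat p H : ℝ) * Real.log p ≤
          ∑ p ∈ H.primeFactors, ((if p ∈ P then (padicValNat p D : ℝ) * Real.log p else 0) +
            (if p ∈ (2 * b).primeFactors then N * Real.log p else 0)) := by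
        refine sum_le_sum fun p hp => ?_
        obtain ⟨h7, h8⟩ := hvH p hp
        have h9 := hpos p hp
        have h7' : (padicValNat p H : ℝ) * Real.log p ≤ (padicValNat p D : ℝ) * Real.log p := by
          have : (padicValNat p H : ℝ) ≤ padicValNat p D := by exact_mod_cast h7
          gcongr
        have h8' : (padicValNat p H : ℝ) * Real.log p ≤ N * Real.log p := by
          have : (padicValNat p H : ℝ) ≤ N := by exact_mod_cast h8
          gcongr
        have h10 : (0 : ℝ) ≤ (padicValNat p D : ℝ) * Real.log p := by positivity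
        have h11 : (0 : ℝ) ≤ N * Real.log p := by positivity
        rcases mem_union.1 (hsub hp) with h | h
        · rw [if_pos h]
          split_ifs <;> linarith
        · rw [if_pos h]
          split_ifs <;> linarith
      refine h6.trans ?_
      rw [sum_add_distrib]
      refine add_le_add ?_ ?_
      · rw [← sum_filter]
        refine sum_le_sum_of_subset_of_nonneg (fun p hp => (mem_filter.1 hp).2) fun p hp _ => ?_
        exact mul_nonneg (Nat.cast_nonneg _) (hlogp p hp)
      · rw [← sum_filter]
        calc ∑ p ∈ H.primeFactors with p ∈ (2 * b).primeFactors, (N : ℝ) * Real.log p ≤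
              ∑ p ∈ (2 * b).primeFactors, (N : ℝ) * Real.log p := by
              refine sum_le_sum_of_subset_of_nonneg (fun p hp => (mem_filter.1 hp).2) fun p hp _ => ?_
              exact mul_nonneg (Nat.cast_nonneg _) (Real.log_nonneg
                (by exact_mod_cast (Nat.prime_of_mem_primeFactors hp).one_lt.le))
          _ = N * ∑ p ∈ (2 * b).primeFactors, Real.log p := by rw [mul_sum]
          _ ≤ N * Real.log (2 * b) := by
              refine mul_le_mul_of_nonneg_left ?_ (Nat.cast_nonneg _)
              have h7 : Real.log ((2 * b : ℕ) : ℝ) = _ := log_eq_sum (2 * b)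
              rw [show (2 : ℝ) * b = ((2 * b : ℕ) : ℝ) by push_cast; ring, h7]
              refine sum_le_sum fun p hp => ?_
              have hpp := Nat.prime_of_mem_primeFactors hp
              have := Fact.mk hpp
              have h8 : 1 ≤ padicValNat p (2 * b) :=
                one_le_padicValNat_of_dvd (by omega) (Nat.dvd_of_mem_primeFactors hp)
              have h9 : (1 : ℝ) ≤ padicValNat p (2 * b) := by exact_mod_cast h8
              have h10 : (0 : ℝ) ≤ Real.log p := Real.log_nonneg (by exact_mod_cast hpp.one_lt.le)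
              nlinarith
    linarith

end H41.PS
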