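import Pool.Agent.H41.PS.Main

/-! # Words in the expansions of the partial sums of `e` -/

set_option autoImplicit false

open Finset Filter

namespace H41.PS

open H41.SW

lemma word_iff (b : ℕ) (hb : 0 < b) (x : ℝ) {k : ℕ} (w : Fin k → Fin b) :
    ∃ α β : ℝ, 0 ≤ α ∧ α ≤ β ∧ β ≤ 1 ∧ β - α = 1 / (b : ℝ) ^ k ∧
      ∀ n, (∀ j : Fin k, digit b x (n + (j : ℕ)) = (((w j : ℕ)) : ℤ)) ↔
        α ≤ Int.fract ((b : ℝ) ^ n * x) ∧ Int.fract ((b : ℝ) ^ n * x) < β := by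
  obtain ⟨v, hv0, hv1, hv⟩ := block_iff b hb x w
  have hb0 : (0 : ℝ) < b := by exact_mod_cast hb
  have hbk : (0 : ℝ) < (b : ℝ) ^ k := by positivity
  have hv0' : (0 : ℝ) ≤ v := by exact_mod_cast hv0
  have hv1' : (v : ℝ) + 1 ≤ (b : ℝ) ^ k := by exact_mod_cast hv1
  refine ⟨v / (b : ℝ) ^ k, (v + 1) / (b : ℝ) ^ k, by positivity, ?_, ?_, ?_, fun n => ?_⟩
  · gcongr
    linarith
  · rw [div_le_one hbk]
    exact hv1'
  · ring
  · rw [← hv n]
    obtain ⟨j, h1, h2⟩ := V_near b hb x k n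
    obtain ⟨h3, h4⟩ := V_range b hb x k n
    have h3' : (0 : ℝ) ≤ V b x k n := by exact_mod_cast h3
    have h4' : (V b x k n : ℝ) + 1 ≤ (b : ℝ) ^ k := by exact_mod_cast h4
    have h5 : (0 : ℝ) ≤ V b x k n / (b : ℝ) ^ k := by positivity
    have h6 : (V b x k n + 1 : ℝ) / (b : ℝ) ^ k ≤ 1 := by
      rw [div_le_one hbk]
      exact h4'
    have h7 : (V b x k n + 1 : ℝ) / (b : ℝ) ^ k = V b x k n / (b : ℝ) ^ k + 1 / (b : ℝ) ^ k := by ring
    have h8 : Int.fract ((b : ℝ) ^ n * x) = (b : ℝ) ^ n * x - j := by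
      rw [Int.fract_eq_iff]
      exact ⟨by linarith, by linarith, j, by ring⟩
    rw [h8]
    constructor
    · intro h9
      rw [h9] at h1 h2
      constructor
      · linarith
      · have : ((v : ℝ) + 1) / (b : ℝ) ^ k = v / (b : ℝ) ^ k + 1 / (b : ℝ) ^ k := by ring
        linarith
    · rintro ⟨h9, h10⟩
      have h11 : (v : ℝ) / (b : ℝ) ^ k < (V b x k n + 1) / (b : ℝ) ^ k := by linarith
      have h12 : (V b x k n : ℝ) / (b : ℝ) ^ k < (v + 1) / (b : ℝ) ^ k := by linarith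
      rw [div_lt_div_iff_of_pos_right hbk] at h11 h12
      have h13 : v < V b x k n + 1 := by exact_mod_cast h11
      have h14 : V b x k n < v + 1 := by exact_mod_cast h12
      omega

theorem words (b : ℕ) (hb : 2 ≤ b) : ∃ N₀ : ℕ, ∀ N : ℕ, N₀ ≤ N → ∀ L : ℕ,
    N.factorial ^ 2 ≤ L → ∀ (k : ℕ) (w : Fin k → Fin b),
    |(((range L).filter fun i => ∀ j : Fin k, digit b (eN N) (i + (j : ℕ)) = (((w j : ℕ)) : ℤ)).card
      : ℝ) / L - 1 / (b : ℝ) ^ k| ≤ Real.exp (-(N * Real.log (Real.log N) / 4)) := by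
  obtain ⟨N₀, hN₀⟩ := intervals b hb
  refine ⟨N₀, fun N hN L hL k w => ?_⟩
  obtain ⟨α, β, h1, h2, h3, h4, h5⟩ := word_iff b (by omega) (eN N) w
  have h6 := hN₀ N hN L hL α β h1 h2 h3
  simp_rw [h5]
  rw [← h4]
  exact h6

end H41.PS
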